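import Pool.Agent.helper65.GD.SpecE

/-!
# gdm:SPQ (MP_ea335c_an): the quotient `q = z φ'/φ` of a spirallike function
-/

set_option autoImplicit false

namespace Pool.Agent.GD

open Finset Metric Filter Topology

theorem SPQ : SPQ_stmt := by
  intro φ γ hφ
  have h0mem : (0 : ℂ) ∈ ball (0 : ℂ) 1 := mem_ball_self one_pos
  have hnz : ∀ z ∈ ball (0 : ℂ) 1, z ≠ 0 → φ z ≠ 0 := by
    intro z hz hz0 h
    have h1 := hφ.spiral z hz hz0
    rw [h, div_zero, mul_zero, Complex.zero_re] at h1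
    exact lt_irrefl _ h1
  have hd : ∀ z : ℂ, z ≠ 0 → dslope φ 0 z = φ z / z := by
    intro z hz0
    rw [dslope_of_ne _ hz0, slope_def_field, hφ.map_zero, sub_zero, sub_zero]
  have hne : ∀ z ∈ ball (0 : ℂ) 1, dslope φ 0 z ≠ 0 := by
    intro z hz
    by_cases hz0 : z = 0
    · rw [hz0, dslope_same]
      exact hφ.deriv_ne
    · rw [hd z hz0]
      exact div_ne_zero (hnz z hz hz0) hz0
  have hq : ∀ z ∈ ball (0 : ℂ) 1, z ≠ 0 → deriv φ z / dslope φ 0 z = z * deriv φ z / φ z := by
    intro z hz hz0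
    have h1 := hnz z hz hz0
    rw [hd z hz0]
    field_simp
  have hq0 : deriv φ 0 / dslope φ 0 0 = 1 := by
    rw [dslope_same]
    exact div_self hφ.deriv_ne
  refine ⟨fun z => deriv φ z / dslope φ 0 z, ?_, hq0, ?_, ?_⟩
  · apply DifferentiableOn.div
    · exact hφ.analytic.deriv isOpen_ball
    · exact (Complex.differentiableOn_dslope (isOpen_ball.mem_nhds h0mem)).2 hφ.analytic
    · exact hne
  · intro z hz
    by_cases hz0 : z = 0
    · subst hz0
      show 0 < (Complex.exp (γ * Complex.I) * (deriv φ 0 / dslope φ 0 0)).re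
      rw [hq0, mul_one, Complex.exp_ofReal_mul_I_re]
      have h := abs_lt.1 hφ.angle
      exact Real.cos_pos_of_mem_Ioo ⟨h.1, h.2⟩
    · show 0 < (Complex.exp (γ * Complex.I) * (deriv φ z / dslope φ 0 z)).re
      rw [hq z hz hz0]
      exact hφ.spiral z hz hz0
  · intro z hz
    show z * deriv φ z = deriv φ z / dslope φ 0 z * φ z
    by_cases hz0 : z = 0
    · subst hz0
      rw [hφ.map_zero, zero_mul, mul_zero]
    · rw [hq z hz hz0, div_mul_cancel₀ _ (hnz z hz hz0)]

end Pool.Agent.GD
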